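import Pool.Agent.V11105.Besicovitch

/-!
Positive answer to Q1 of MP_f73729_an: there are an irrational `α` (the golden ratio) and one
continuous function `φ` on the circle, Hölder continuous with every exponent `γ < 1`, whose
cylindrical transformation over the rotation by `α` is Besicovitch.
-/

open scoped NNReal
open Pool.Agent.V11105.Bes

theorem Pool.Agent.Results.MP_f73729_an.HolderBesicovitch.result :
    ∃ α : ℝ, Irrational α ∧ ∃ φ : UnitAddCircle → ℝ, Continuous φ ∧
      (∀ γ : ℝ≥0, γ < 1 → ∃ C : ℝ≥0, HolderWith C γ φ) ∧ IsBesicovitch α φ :=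
  ⟨α0, main.1, φ0, main.2.1, main.2.2.1, main.2.2.2⟩
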